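import Pool.Agent.Work.MP_3892ce_cube_h9.Equal

/-! # Melzak's problem for polytopes which are combinatorially equivalent to the cube

`zeta1 P` is the total edge length of `P`: the sum of the diameters of the exposed faces of `P`
which are nondegenerate segments. `IsCombCube P` says that `P` is a polytope combinatorially
equivalent to the cube, `IsCube P` that it is a cube. -/

set_option autoImplicit false

namespace Pool.Agent.Results.MP_3892ce_gt.Cubes

open MeasureTheory Pool.Agent.Work.MP_3892ce_gt Pool.Agent.Work.MP_3892ce_cube_h9

theorem result (P : Set E3) (hP : IsCombCube P) :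
    -- the sharp inequality, with the cubes as the only cases of equality
    1728 * volume P ≤ zeta1 P ^ 3 ∧
    (1728 * volume P = zeta1 P ^ 3 ↔ IsCube P) ∧
    -- Melzak's inequality is strict in this class
    ENNReal.ofReal (972 * Real.sqrt 3) * volume P < zeta1 P ^ 3 := by
  obtain ⟨v, n, c, h⟩ := hP
  refine ⟨h.main.1, ⟨fun he => isCube_of h he, fun hc => le_antisymm h.main.1 (cube_eq hc)⟩, ?_⟩
  have hlt : (972 * Real.sqrt 3 : ℝ) < 1728 := by
    have h3 : Real.sqrt 3 < 1.75 := by
      rw [Real.sqrt_lt' (by norm_num)]; norm_num
    linarith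
  have hfin : volume P ≠ ⊤ := h.bounded.measure_lt_top.ne
  rcases eq_or_ne (volume P) 0 with h0 | h0
  · rw [h0, mul_zero]
    have hz : 0 < zeta1 P := by
      have h1 : Metric.ediam (eg v (0, false, false)) ≤ zeta1 P := by
        have := Finset.single_le_sum (f := fun k => Metric.ediam (eg v k)) (fun _ _ => zero_le)
          (Finset.mem_univ (0, false, false))
        exact this.trans (sum_le_zeta1 (eg v) h.isEdge h.eg_inj)
      refine lt_of_lt_of_le ?_ h1
      unfold eg
      rw [ediam_seg, edist_pos]
      intro he
      have := congrFun (h.injv he) 0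
      simp [vx] at this
    positivity
  · refine lt_of_lt_of_le ?_ h.main.1
    have : ENNReal.ofReal (972 * Real.sqrt 3) < 1728 := by
      have e : (1728 : ENNReal) = ENNReal.ofReal 1728 := by norm_num
      rw [e]
      exact (ENNReal.ofReal_lt_ofReal_iff (by norm_num)).mpr hlt
    exact ENNReal.mul_lt_mul_left h0 hfin this

end Pool.Agent.Results.MP_3892ce_gt.Cubes
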