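import Pool.Agent.Work.MP_3892ce_str.Core10
import Pool.Agent.Work.MP_3892ce_str.Form
import Pool.Agent.Work.MP_3892ce_caseB.Inst
import Pool.Agent.Work.MP_3892ce_num.InstA1
import Pool.Agent.Work.MP_3892ce_num.InstA2

/-!
# Melzak's conjecture

`ζ₁` (`zeta1`) is the total edge length of a polytope, `zetaLim K` the least limit of the total
edge lengths of polytopes which converge to `K` in the Hausdorff metric, and `IsC13` says that `K`
is a three-dimensional compact convex set for which this is finite. The best constant in
`vol(K)^(1/3) ≤ γ ζ₁(K)` is `2^(-2/3) 3^(-11/6)`, and equality holds exactly for the Archimedean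
3-sided prisms (`IsArchPrism`).

Outline. For a polytope with at least six facets the five largest facets are considered.
If at least two pairs of them are not adjacent, then the Brunn-Minkowski inequality in the planes
of the facets and in space gives the inequality with a constant larger than `972 √3`
(`S2_1684`, a finite certificate checked in exact arithmetic by the kernel). Otherwise exactly one
pair is not adjacent, and either the five facets bound a body of prism type all of whose cut
corners can be filled without increasing the total edge length (then the theorem for five facets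
applies), or the remaining facets are large, or a sharp corner is cut (`stmt_A1`, `stmt_A2`, again
by finite certificates). The limit statement for convex bodies follows by approximation.
-/

set_option autoImplicit false

open MeasureTheory Set
open scoped ENNReal

namespace Pool.Agent.Results.MP_3892ce_gt.MelzakConjecture

open Pool.Agent.Work.MP_3892ce_str
open Pool.Agent.Work.MP_3892ce_gt (E3 IsEdge zeta1 IsArchPrism)

theorem result :
    -- the least constant over the class `C_1^3`
    IsLeast {γ : ℝ | ∀ K : Set E3, IsC13 K →
      (volume K).toReal ^ (1 / 3 : ℝ) ≤ γ * (zetaLim K).toReal}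
      (2 ^ (-(2 / 3) : ℝ) * 3 ^ (-(11 / 6) : ℝ)) ∧
    -- the case of equality in `C_1^3`
    (∀ K : Set E3, IsC13 K → ((volume K).toReal ^ (1 / 3 : ℝ) =
      2 ^ (-(2 / 3) : ℝ) * 3 ^ (-(11 / 6) : ℝ) * (zetaLim K).toReal ↔ IsArchPrism K)) ∧
    -- the same for polytopes, in terms of the total edge length
    (∀ P : Set E3, IsPoly P → ENNReal.ofReal (972 * √3) * volume P ≤ zeta1 P ^ 3 ∧
      (ENNReal.ofReal (972 * √3) * volume P = zeta1 P ^ 3 ↔ IsArchPrism P)) :=
  form fun K h1 h2 h3 => full10 (τ := 1 / 250) (by norm_num)
    Pool.Agent.Work.MP_3892ce_caseB.S2_1684 Pool.Agent.Work.MP_3892ce_num.stmt_A1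
    Pool.Agent.Work.MP_3892ce_num.stmt_A2 h1 h2 h3

end Pool.Agent.Results.MP_3892ce_gt.MelzakConjecture
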